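import Pool.Agent.Q161.Insert

/-!
# Counting permutations avoiding a mesh pattern on `132`

An occurrence of the pattern is a factor `(M+2)(M+1)` following a nonempty prefix with maximum `M`.
For a set `T` of disjoint such position pairs, the number of permutations with occurrences at all
places of `T` is `(n-2|T|)!` (append the entries one after the other). Inclusion–exclusion gives the
power series.
-/

set_option autoImplicit false

namespace Pool.Agent.Results.MP_f17a8d_co.MeshCount

open Finset Q161.Insert Nat PowerSeries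

/-- For `j_1 < ⋯ < j_k` in `[n]` (given with an index shift as a function to `Fin n`), the numbers
`j_0 = 0, j_1, …, j_k, j_{k+1} = n + 1`. -/
def bnd {k n : ℕ} (j : Fin k → Fin n) (a : ℕ) : ℕ :=
  if a = 0 then 0 else if h : a - 1 < k then (j ⟨a - 1, h⟩ : ℕ) + 1 else n + 1

/-- `π` contains the mesh pattern `(σ, R)`: there are positions `i_1 < ⋯ < i_k` such that
`π(i_1) ⋯ π(i_k)` is order-isomorphic to `σ` and, with `j_1 < ⋯ < j_k` the values `π(i_1), …, π(i_k)`
in increasing order, for no `(a,b) ∈ R` there is an `x` with `i_a < x < i_{a+1}` and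
`j_b < π(x) < j_{b+1}`. -/
def MeshContains {k n : ℕ} (σ : Equiv.Perm (Fin k)) (R : Finset (ℕ × ℕ))
    (π : Equiv.Perm (Fin n)) : Prop :=
  ∃ i : Fin k → Fin n, StrictMono i ∧ (∀ a b, σ a < σ b ↔ π (i a) < π (i b)) ∧
    ∀ p ∈ R, ¬ ∃ x : Fin n,
      bnd i p.1 < (x : ℕ) + 1 ∧ (x : ℕ) + 1 < bnd i (p.1 + 1) ∧
      bnd (fun b => π (i (σ.symm b))) p.2 < (π x : ℕ) + 1 ∧
      (π x : ℕ) + 1 < bnd (fun b => π (i (σ.symm b))) (p.2 + 1)

/-- the pattern `132` -/
def s132 : Equiv.Perm (Fin 3) := Equiv.swap 1 2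

/-- the shaded boxes -/
def shaded : Finset (ℕ × ℕ) :=
  {(0, 2), (0, 3), (1, 2), (1, 3), (2, 0), (2, 1), (2, 2), (2, 3), (3, 1), (3, 2)}

/-- `|S_n(p)|` -/
noncomputable def av (n : ℕ) : ℕ :=
  Nat.card {π : Equiv.Perm (Fin n) // ¬ MeshContains s132 shaded π}

/-- the power series `∑_m m! (x/(1+x^2))^m`; the terms with `m > n` do not contribute to the
coefficient of `x^n` -/
noncomputable def rhs : ℚ⟦X⟧ :=
  PowerSeries.mk fun n => ∑ m ∈ range (n + 1),
    (m ! : ℚ) * coeff n ((X * (1 + X ^ 2 : ℚ⟦X⟧)⁻¹) ^ m)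

/-! ### occurrences -/

/-- the entries at positions `i`, `i+1` are `M+2`, `M+1` where `M` is the maximum of the nonempty
prefix of length `i` -/
def Occ {n : ℕ} (π : Equiv.Perm (Fin n)) (i : ℕ) : Prop :=
  ∃ (h : i + 1 < n) (M : ℕ), (π ⟨i, by omega⟩ : ℕ) = M + 2 ∧ (π ⟨i + 1, h⟩ : ℕ) = M + 1 ∧
    (∀ (j : ℕ) (hj : j < i), (π ⟨j, by omega⟩ : ℕ) ≤ M) ∧
    ∃ (j : ℕ) (hj : j < i), (π ⟨j, by omega⟩ : ℕ) = M

theorem contains_iff {n : ℕ} (π : Equiv.Perm (Fin n)) :
    MeshContains s132 shaded π ↔ ∃ i, Occ π i := by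
  have t0 : s132.symm 0 = 0 := by decide
  have t1 : s132.symm 1 = 2 := by decide
  have t2 : s132.symm 2 = 1 := by decide
  constructor
  · rintro ⟨i, hi, h1, h2⟩
    have o1 : π (i 0) < π (i 2) := (h1 0 2).1 (by decide)
    have o2 : π (i 2) < π (i 1) := (h1 2 1).1 (by decide)
    have p1 : i 0 < i 1 := hi (by decide)
    have p2 : i 1 < i 2 := hi (by decide)
    have b0 : bnd i 0 = 0 := rfl
    have b1 : bnd i 1 = i 0 + 1 := rfl
    have b2 : bnd i 2 = i 1 + 1 := rfl
    have b3 : bnd i 3 = i 2 + 1 := rfl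
    have b4 : bnd i 4 = n + 1 := rfl
    have c0 : bnd (fun b => π (i (s132.symm b))) 0 = 0 := rfl
    have c1 : bnd (fun b => π (i (s132.symm b))) 1 = π (i 0) + 1 := rfl
    have c2 : bnd (fun b => π (i (s132.symm b))) 2 = π (i 2) + 1 := rfl
    have c3 : bnd (fun b => π (i (s132.symm b))) 3 = π (i 1) + 1 := rfl
    have c4 : bnd (fun b => π (i (s132.symm b))) 4 = n + 1 := rfl
    have g02 := h2 (0, 2) (by decide)
    have g03 := h2 (0, 3) (by decide)
    have g12 := h2 (1, 2) (by decide)
    have g13 := h2 (1, 3) (by decide)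
    have g20 := h2 (2, 0) (by decide)
    have g21 := h2 (2, 1) (by decide)
    have g22 := h2 (2, 2) (by decide)
    have g23 := h2 (2, 3) (by decide)
    have g31 := h2 (3, 1) (by decide)
    have g32 := h2 (3, 2) (by decide)
    push Not at g02 g03 g12 g13 g20 g21 g22 g23 g31 g32
    simp only [Nat.reduceAdd, zero_add, b0, b1, b2, b3, b4, c0, c1, c2, c3, c4] at *
    rw [Fin.lt_def] at o1 o2 p1 p2
    -- no position between `i 1` and `i 2`
    have q1 : (i 2 : ℕ) = i 1 + 1 := by
      by_contra hne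
      have hlt : (i 1 : ℕ) + 1 < n := by omega
      let x : Fin n := ⟨i 1 + 1, hlt⟩
      have x1 : (x : ℕ) = i 1 + 1 := rfl
      have d1 : π x ≠ π (i 0) := fun h => by
        have := congrArg Fin.val (π.injective h); omega
      have d2 : π x ≠ π (i 1) := fun h => by
        have := congrArg Fin.val (π.injective h); omega
      have d3 : π x ≠ π (i 2) := fun h => by
        have := congrArg Fin.val (π.injective h); omega
      rw [ne_eq, Fin.ext_iff] at d1 d2 d3
      have e0 := g20 x
      have e1 := g21 x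
      have e2 := g22 x
      have e3 := g23 x
      have := (π x).2
      omega
    -- all values are outside `(b, c)`
    have q2 : (π (i 1) : ℕ) = π (i 2) + 1 := by
      by_contra hne
      have hlt : (π (i 2) : ℕ) + 1 < n := by omega
      obtain ⟨x, hx⟩ := π.surjective ⟨π (i 2) + 1, hlt⟩
      have hx' : (π x : ℕ) = π (i 2) + 1 := by rw [hx]
      have d1 : x ≠ i 0 := fun h => by rw [h] at hx'; omega
      have d2 : x ≠ i 1 := fun h => by rw [h] at hx'; omega
      have d3 : x ≠ i 2 := fun h => by rw [h] at hx'; omega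
      rw [ne_eq, Fin.ext_iff] at d1 d2 d3
      have e0 := g02 x
      have e1 := g12 x
      have e2 := g22 x
      have e3 := g32 x
      have := x.2
      omega
    -- everything before `i 1` is smaller than `π (i 1)`
    have q3 : ∀ x : Fin n, x < i 1 → (π x : ℕ) < π (i 2) := by
      intro x hx
      rw [Fin.lt_def] at hx
      have d2 : π x ≠ π (i 1) := fun h => by
        have := congrArg Fin.val (π.injective h); omega
      have d3 : π x ≠ π (i 2) := fun h => by
        have := congrArg Fin.val (π.injective h); omega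
      rw [ne_eq, Fin.ext_iff] at d2 d3
      have e0 := g03 x
      have e1 := g13 x
      by_cases hx0 : x = i 0
      · subst hx0; exact o1
      · rw [Fin.ext_iff] at hx0
        have := (π x).2
        omega
    refine ⟨i 1, by omega, π (i 2) - 1, ?_, ?_, ?_, ?_⟩
    · change (π (i 1) : ℕ) = _
      omega
    · have : (⟨(i 1 : ℕ) + 1, by omega⟩ : Fin n) = i 2 := Fin.ext (by simp [q1])
      rw [this]; omega
    · intro j hj
      have := q3 ⟨j, by omega⟩ hj
      omega
    · obtain ⟨x, hx⟩ := π.surjective ⟨π (i 2) - 1, by omega⟩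
      have hx' : (π x : ℕ) = π (i 2) - 1 := by rw [hx]
      refine ⟨x, ?_, hx'⟩
      by_contra hge
      have d1 : x ≠ i 1 := fun h => by rw [h] at hx'; omega
      have d2 : x ≠ i 2 := fun h => by rw [h] at hx'; omega
      have d3 : x ≠ i 0 := fun h => by
        rw [h] at hge; omega
      have d4 : (π x : ℕ) ≠ π (i 0) := fun h => d3 (π.injective (Fin.ext h))
      rw [ne_eq, Fin.ext_iff] at d1 d2
      have e1 := g31 x
      have := x.2
      omega
  · rintro ⟨i, h, M, h1, h2, h3, j, hj, h4⟩
    refine ⟨![⟨j, by omega⟩, ⟨i, by omega⟩, ⟨i + 1, h⟩], ?_, ?_, ?_⟩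
    · intro a b hab
      fin_cases a <;> fin_cases b <;> simp at hab ⊢ <;> omega
    · have v0 : (s132 0 : ℕ) = 0 := by decide
      have v1 : (s132 1 : ℕ) = 2 := by decide
      have v2 : (s132 2 : ℕ) = 1 := by decide
      intro a b
      rw [Fin.lt_def, Fin.lt_def]
      fin_cases a <;> fin_cases b <;>
        simp only [Fin.zero_eta, Fin.mk_one, Fin.reduceFinMk, v0, v1, v2, Matrix.cons_val_zero,
          Matrix.cons_val_one, Matrix.cons_val] <;>
        (constructor <;> intro hh) <;> simp at hh ⊢ <;> omega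
    · rintro ⟨a, b⟩ hab ⟨x, x1, x2, x3, x4⟩
      set f : Fin 3 → Fin n := ![⟨j, by omega⟩, ⟨i, by omega⟩, ⟨i + 1, h⟩] with hf
      have b0 : bnd f 0 = 0 := rfl
      have b1 : bnd f 1 = j + 1 := rfl
      have b2 : bnd f 2 = i + 1 := rfl
      have b3 : bnd f 3 = i + 1 + 1 := rfl
      have b4 : bnd f 4 = n + 1 := rfl
      have c0 : bnd (fun b => π (f (s132.symm b))) 0 = 0 := rfl
      have c1 : bnd (fun b => π (f (s132.symm b))) 1 = M + 1 := by rw [← h4]; rfl
      have c2 : bnd (fun b => π (f (s132.symm b))) 2 = M + 1 + 1 := by rw [← h2]; rfl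
      have c3 : bnd (fun b => π (f (s132.symm b))) 3 = M + 2 + 1 := by rw [← h1]; rfl
      have c4 : bnd (fun b => π (f (s132.symm b))) 4 = n + 1 := rfl
      have h3' : (x : ℕ) < i → (π x : ℕ) ≤ M := fun hx => h3 x hx
      simp only [shaded, mem_insert, mem_singleton, Prod.mk.injEq] at hab
      rcases hab with ⟨rfl, rfl⟩ | ⟨rfl, rfl⟩ | ⟨rfl, rfl⟩ | ⟨rfl, rfl⟩ | ⟨rfl, rfl⟩ | ⟨rfl, rfl⟩ |
        ⟨rfl, rfl⟩ | ⟨rfl, rfl⟩ | ⟨rfl, rfl⟩ | ⟨rfl, rfl⟩ <;>
      simp only [Nat.reduceAdd, zero_add, b0, b1, b2, b3, b4, c0, c1, c2, c3, c4] at x1 x2 x3 x4 <;>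
      omega

/-! ### appending a value -/

theorem occ_bounds {n : ℕ} {π : Equiv.Perm (Fin n)} {i : ℕ} (h : Occ π i) : 1 ≤ i ∧ i + 1 < n := by
  obtain ⟨h, M, _, _, _, j, hj, _⟩ := h
  exact ⟨by omega, h⟩

theorem occ_adj {n : ℕ} {π : Equiv.Perm (Fin n)} {i : ℕ} (h : Occ π i) : ¬ Occ π (i + 1) := by
  obtain ⟨h, M, h1, h2, h3, _⟩ := h
  rintro ⟨h', M', h1', h2', h3', _⟩
  have := h3' i (by omega)
  omega

theorem occ_ins {n : ℕ} (x : Fin (n + 1)) (τ : Equiv.Perm (Fin n)) {i : ℕ} (hi : i + 1 < n) :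
    Occ (ins x τ) i ↔ Occ τ i ∧ (x : ℕ) ≠ τ ⟨i, by omega⟩ ∧ (x : ℕ) ≠ τ ⟨i + 1, hi⟩ := by
  have v : ∀ (j : ℕ) (hj : j < n), ((ins x τ ⟨j, by omega⟩ : Fin (n + 1)) : ℕ) =
      if ((τ ⟨j, hj⟩ : Fin n) : ℕ) < x then ((τ ⟨j, hj⟩ : Fin n) : ℕ)
      else ((τ ⟨j, hj⟩ : Fin n) : ℕ) + 1 := ins_val_lt x τ
  constructor
  · rintro ⟨h, M, h1, h2, h3, j, hj, h4⟩
    rw [v i (by omega)] at h1
    rw [v (i + 1) hi] at h2
    rw [v j (by omega)] at h4
    have hne : ((τ ⟨j, by omega⟩ : Fin n) : ℕ) ≠ x ∨ ((τ ⟨j, by omega⟩ : Fin n) : ℕ) = x := by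
      tauto
    refine ⟨⟨hi, (τ ⟨j, by omega⟩ : Fin n), ?_, ?_, ?_, j, hj, rfl⟩, ?_, ?_⟩
    · split_ifs at h1 h2 h4 <;> omega
    · split_ifs at h1 h2 h4 <;> omega
    · intro k hk
      have h5 := h3 k hk
      rw [v k (by omega)] at h5
      have hkj : k = j ∨ ((τ ⟨k, by omega⟩ : Fin n) : ℕ) ≠ τ ⟨j, by omega⟩ := by
        by_cases e : k = j
        · exact Or.inl e
        · right
          intro h
          have := τ.injective (Fin.ext h)
          simp only [Fin.mk.injEq] at this
          exact e this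
      rcases hkj with rfl | hkj
      · exact le_refl _
      · split_ifs at h1 h2 h4 h5 <;> omega
    · split_ifs at h1 h2 h4 <;> omega
    · split_ifs at h1 h2 h4 <;> omega
  · rintro ⟨⟨h, M, h1, h2, h3, j, hj, h4⟩, h5, h6⟩
    rw [h1] at h5
    rw [h2] at h6
    by_cases hx : (x : ℕ) ≤ M
    · refine ⟨by omega, M + 1, ?_, ?_, ?_, j, hj, ?_⟩
      · rw [v i (by omega), h1, if_neg (by omega)]
      · rw [v (i + 1) hi, h2, if_neg (by omega)]
      · intro k hk
        have := h3 k hk
        rw [v k (by omega)]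
        split_ifs <;> omega
      · rw [v j (by omega), h4, if_neg (by omega)]
    · refine ⟨by omega, M, ?_, ?_, ?_, j, hj, ?_⟩
      · rw [v i (by omega), h1, if_pos (by omega)]
      · rw [v (i + 1) hi, h2, if_pos (by omega)]
      · intro k hk
        have := h3 k hk
        rw [v k (by omega)]
        split_ifs <;> omega
      · rw [v j (by omega), h4, if_pos (by omega)]

theorem ins_last' {n : ℕ} (x : Fin (n + 1)) (τ : Equiv.Perm (Fin n)) (h : n < n + 1) :
    ins x τ ⟨n, h⟩ = x := ins_last x τ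

theorem occ_last {n : ℕ} (hn : 1 ≤ n) (x : Fin (n + 2)) (y : Fin (n + 1))
    (τ : Equiv.Perm (Fin n)) : Occ (ins x (ins y τ)) n ↔ (x : ℕ) = n ∧ (y : ℕ) = n := by
  have e1 : (ins x (ins y τ)) ⟨n + 1, by omega⟩ = x := ins_last' x _ _
  have e2 : ((ins x (ins y τ)) ⟨n, by omega⟩ : ℕ) = if (y : ℕ) < x then (y : ℕ) else y + 1 := by
    rw [ins_val_lt x (ins y τ) n (by omega), ins_last']
  constructor
  · rintro ⟨h, M, h1, h2, h3, j, hj, h4⟩
    rw [e2] at h1
    rw [e1] at h2
    obtain ⟨p, hp⟩ := (ins x (ins y τ)).surjective (Fin.last (n + 1))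
    have hp' : ((ins x (ins y τ)) p : ℕ) = n + 1 := by rw [hp]; rfl
    have hpn : (p : ℕ) < n + 2 := p.2
    rcases Nat.lt_or_ge (p : ℕ) n with h5 | h5
    · have := h3 p h5
      have h6 : ((ins x (ins y τ)) ⟨(p : ℕ), by omega⟩ : ℕ) = n + 1 := hp'
      rw [h6] at this
      split_ifs at h1 <;> omega
    · have h7 : (p : ℕ) = n ∨ (p : ℕ) = n + 1 := by omega
      rcases h7 with h7 | h7
      · have : p = ⟨n, by omega⟩ := Fin.ext h7
        rw [this, e2] at hp'
        split_ifs at hp' h1 <;> omega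
      · have : p = ⟨n + 1, by omega⟩ := Fin.ext h7
        rw [this, e1] at hp'
        have := y.2
        split_ifs at h1 <;> omega
  · rintro ⟨hx, hy⟩
    have v1 : ∀ (j : ℕ) (hj : j < n), ((ins x (ins y τ)) ⟨j, by omega⟩ : ℕ) = τ ⟨j, hj⟩ := by
      intro j hj
      have := (τ ⟨j, hj⟩).2
      rw [ins_val_lt x (ins y τ) j (by omega), ins_val_lt y τ j hj, hy, if_pos this, hx,
        if_pos this]
    refine ⟨by omega, n - 1, ?_, ?_, ?_, ?_⟩
    · rw [e2, hx, hy]; simp; omega
    · rw [e1, hx]; omega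
    · intro j hj
      rw [v1 j hj]
      have := (τ ⟨j, hj⟩).2
      omega
    · obtain ⟨p, hp⟩ := τ.surjective ⟨n - 1, by omega⟩
      refine ⟨p, p.2, ?_⟩
      rw [v1 p p.2]
      exact congrArg Fin.val hp

/-! ### counting permutations with marked occurrences -/

open Classical in
/-- the number of permutations with occurrences at all places of `T` -/
noncomputable def E (n : ℕ) (T : Finset ℕ) : ℕ :=
  ∑ π : Equiv.Perm (Fin n), if ∀ i ∈ T, Occ π i then 1 else 0

/-- the places in `T` are possible and not adjacent -/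
def Valid (n : ℕ) (T : Finset ℕ) : Prop := ∀ i ∈ T, 1 ≤ i ∧ i + 1 < n ∧ i + 1 ∉ T

instance (n : ℕ) (T : Finset ℕ) : Decidable (Valid n T) := by unfold Valid; infer_instance

theorem E_of_not_valid {n : ℕ} {T : Finset ℕ} (h : ¬ Valid n T) : E n T = 0 := by
  classical
  unfold E
  apply Finset.sum_eq_zero
  intro π _
  rw [if_neg]
  intro hT
  apply h
  intro i hi
  exact ⟨(occ_bounds (hT i hi)).1, (occ_bounds (hT i hi)).2, fun h' => occ_adj (hT i hi) (hT _ h')⟩

theorem card_places {n : ℕ} {T : Finset ℕ} (h : Valid n T) :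
    (T ∪ T.image (· + 1)).card = 2 * T.card := by
  rw [Finset.card_union_of_disjoint, Finset.card_image_of_injective _ (add_left_injective 1),
    two_mul]
  rw [Finset.disjoint_left]
  intro x hx hx'
  obtain ⟨y, hy, rfl⟩ := mem_image.1 hx'
  exact (h y hy).2.2 hx

theorem two_card_le {n : ℕ} {T : Finset ℕ} (h : Valid (n + 1) T) : 2 * T.card ≤ n := by
  rw [← card_places h]
  have : T ∪ T.image (· + 1) ⊆ Icc 1 n := by
    intro x hx
    rw [mem_union, mem_image] at hx
    rw [mem_Icc]
    rcases hx with hx | ⟨y, hy, rfl⟩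
    · have := h x hx; omega
    · have := h y hy; omega
  simpa using card_le_card this

theorem E_step {n : ℕ} {T : Finset ℕ} (h : Valid (n + 1) T) :
    E (n + 2) T = (n + 2 - 2 * T.card) * E (n + 1) T := by
  classical
  unfold E
  rw [sum_ins, mul_sum]
  refine Finset.sum_congr rfl (fun τ _ => ?_)
  have h1 : ∀ x : Fin (n + 2), (∀ i ∈ T, Occ (ins x τ) i) ↔ (∀ i ∈ T, Occ τ i) ∧
      x ∉ (T ∪ T.image (· + 1)).image (fun i => if h : i < n + 1 then (τ ⟨i, h⟩).castSucc
        else Fin.last _) := by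
    intro x
    constructor
    · intro hx
      refine ⟨fun i hi => ((occ_ins x τ (h i hi).2.1).1 (hx i hi)).1, ?_⟩
      intro hm
      rw [mem_image] at hm
      obtain ⟨i, hi, rfl⟩ := hm
      rw [mem_union, mem_image] at hi
      rcases hi with hi | ⟨j, hj, rfl⟩
      · have h2 := (h i hi).2.1
        have h3 := ((occ_ins _ τ h2).1 (hx i hi)).2.1
        rw [dif_pos (by omega)] at h3
        exact h3 rfl
      · have h2 := (h j hj).2.1
        have h3 := ((occ_ins _ τ h2).1 (hx j hj)).2.2
        rw [dif_pos h2] at h3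
        exact h3 rfl
    · rintro ⟨h4, h5⟩ i hi
      have h2 := (h i hi).2.1
      rw [occ_ins x τ h2]
      refine ⟨h4 i hi, ?_, ?_⟩
      · intro h6
        apply h5
        rw [mem_image]
        refine ⟨i, mem_union_left _ hi, ?_⟩
        rw [dif_pos (by omega)]
        exact Fin.ext h6.symm
      · intro h6
        apply h5
        rw [mem_image]
        refine ⟨i + 1, mem_union_right _ (mem_image_of_mem _ hi), ?_⟩
        rw [dif_pos h2]
        exact Fin.ext h6.symm
  simp only [h1]
  by_cases h4 : ∀ i ∈ T, Occ τ i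
  · simp only [and_iff_right h4]
    rw [if_pos h4, mul_one, ← Finset.card_filter]
    have h6 : univ.filter (fun x : Fin (n + 2) => x ∉ (T ∪ T.image (· + 1)).image
        (fun i => if h : i < n + 1 then (τ ⟨i, h⟩).castSucc else Fin.last _)) =
        ((T ∪ T.image (· + 1)).image (fun i => if h : i < n + 1 then (τ ⟨i, h⟩).castSucc
        else Fin.last _))ᶜ := by
      ext x; simp
    rw [h6, Finset.card_compl, Fintype.card_fin, Finset.card_image_of_injOn, card_places h]
    have h7 : ∀ i ∈ T ∪ T.image (· + 1), i < n + 1 := by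
      intro i hi
      rw [mem_union, mem_image] at hi
      rcases hi with hi | ⟨j, hj, rfl⟩
      · have := h i hi; omega
      · have := h j hj; omega
    intro i hi j hj hij
    simp only at hij
    rw [dif_pos (h7 i hi), dif_pos (h7 j hj)] at hij
    have := τ.injective (Fin.castSucc_injective _ hij)
    simpa using this
  · simp only [h4, false_and, if_false, Finset.sum_const_zero, mul_zero]

theorem E_pair {n : ℕ} (hn : 1 ≤ n) {T : Finset ℕ} (h : Valid n T) :
    E (n + 2) (insert n T) = E n T := by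
  classical
  unfold E
  rw [sum_ins, sum_ins]
  refine Finset.sum_congr rfl (fun τ _ => ?_)
  have h1 : ∀ (y : Fin (n + 1)) (x : Fin (n + 2)), (∀ i ∈ insert n T, Occ (ins x (ins y τ)) i) ↔
      (y = ⟨n, by omega⟩ ∧ x = ⟨n, by omega⟩) ∧ (∀ i ∈ T, Occ τ i) := by
    intro y x
    rw [Finset.forall_mem_insert, occ_last hn]
    constructor
    · rintro ⟨⟨hx, hy⟩, hT⟩
      refine ⟨⟨Fin.ext hy, Fin.ext hx⟩, ?_⟩
      intro i hi
      have h2 := (h i hi).2.1
      have h3 := ((occ_ins x (ins y τ) (by omega)).1 (hT i hi)).1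
      exact ((occ_ins y τ h2).1 h3).1
    · rintro ⟨⟨rfl, rfl⟩, hT⟩
      refine ⟨⟨rfl, rfl⟩, ?_⟩
      intro i hi
      have h2 := (h i hi).2.1
      have t1 := (τ ⟨i, by omega⟩).2
      have t2 := (τ ⟨i + 1, h2⟩).2
      rw [occ_ins _ _ (by omega), occ_ins _ _ h2]
      refine ⟨⟨hT i hi, ?_, ?_⟩, ?_, ?_⟩
      · simp only; omega
      · simp only; omega
      · rw [ins_val_lt _ _ i (by omega)]; simp only; split_ifs <;> omega
      · rw [ins_val_lt _ _ (i + 1) h2]; simp only; split_ifs <;> omega
  simp only [h1]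
  rw [Finset.sum_eq_single (⟨n, by omega⟩ : Fin (n + 1)), Finset.sum_eq_single
    (⟨n, by omega⟩ : Fin (n + 2))]
  · simp
  · intro x _ hx
    rw [if_neg]
    rintro ⟨⟨_, hx'⟩, _⟩
    exact hx hx'
  · simp
  · intro y _ hy
    apply Finset.sum_eq_zero
    intro x _
    rw [if_neg]
    rintro ⟨⟨hy', _⟩, _⟩
    exact hy hy'
  · simp

theorem E_eq (n : ℕ) : ∀ T, Valid n T → E n T = (n - 2 * T.card)! := by
  induction n using Nat.strong_induction_on with
  | _ n ih =>
    intro T hT
    match n with
    | 0 =>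
      have : T = ∅ := by
        rw [Finset.eq_empty_iff_forall_notMem]
        intro i hi
        have := hT i hi; omega
      subst this
      simp [E]
    | 1 =>
      have : T = ∅ := by
        rw [Finset.eq_empty_iff_forall_notMem]
        intro i hi
        have := hT i hi; omega
      subst this
      simp [E]
    | n + 2 =>
      by_cases h : n ∈ T
      · have h1 : T = insert n (T.erase n) := (Finset.insert_erase h).symm
        have h2 : Valid n (T.erase n) := by
          intro i hi
          rw [mem_erase] at hi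
          have h3 := hT i hi.2
          refine ⟨h3.1, ?_, fun h' => h3.2.2 (mem_of_mem_erase h')⟩
          have h4 : i + 1 ≠ n := fun h' => h3.2.2 (by rw [h']; exact h)
          omega
        have h5 : T.card = (T.erase n).card + 1 := by
          rw [Finset.card_erase_of_mem h]
          have := Finset.card_pos.2 ⟨n, h⟩
          omega
        have hn : 1 ≤ n := (hT n h).1
        rw [h1, E_pair hn h2, ih n (by omega) _ h2, ← h1, h5]
        congr 1
        omega
      · have h2 : Valid (n + 1) T := by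
          intro i hi
          have h3 := hT i hi
          refine ⟨h3.1, ?_, h3.2.2⟩
          have : i ≠ n := fun h' => h (h' ▸ hi)
          omega
        rw [E_step h2, ih (n + 1) (by omega) _ h2]
        have h3 := two_card_le h2
        rw [show n + 2 - 2 * T.card = (n + 1 - 2 * T.card) + 1 by omega, Nat.factorial_succ]

/-! ### inclusion–exclusion and the recursion -/

/-- signed sum over the possible sets of marked places -/
def V (n : ℕ) (f : ℕ → ℚ) : ℚ :=
  ∑ T ∈ (range n).powerset with Valid n T, (-1) ^ T.card * f (n - 2 * T.card)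

theorem av_eq (n : ℕ) : (av n : ℚ) = V n (fun m => (m ! : ℚ)) := by
  classical
  have h1 : av n = (univ.filter (fun π : Equiv.Perm (Fin n) => ¬ ∃ i, Occ π i)).card := by
    unfold av
    rw [Nat.card_eq_fintype_card, Fintype.card_subtype]
    congr 1
    ext π
    rw [mem_filter, mem_filter, contains_iff]
  have h2 : ∀ π : Equiv.Perm (Fin n), (if ¬ ∃ i, Occ π i then (1 : ℚ) else 0) =
      ∑ T ∈ (range n).powerset, if ∀ i ∈ T, Occ π i then (-1 : ℚ) ^ T.card else 0 := by
    intro π
    have h3 := Finset.sum_powerset_neg_one_pow_card (x := (range n).filter (fun i => Occ π i))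
    have h4 : ((range n).filter (fun i => Occ π i)).powerset =
        (range n).powerset.filter (fun T => ∀ i ∈ T, Occ π i) := by
      ext T
      rw [mem_powerset, mem_filter, mem_powerset]
      constructor
      · intro h
        exact ⟨fun i hi => (mem_filter.1 (h hi)).1, fun i hi => (mem_filter.1 (h hi)).2⟩
      · rintro ⟨h5, h6⟩ i hi
        exact mem_filter.2 ⟨h5 hi, h6 i hi⟩
    rw [h4, Finset.sum_filter] at h3
    have h5 : ((range n).filter (fun i => Occ π i) = ∅) ↔ ¬ ∃ i, Occ π i := by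
      rw [Finset.filter_eq_empty_iff]
      constructor
      · rintro h ⟨i, hi⟩
        exact h (mem_range.2 (by have := occ_bounds hi; omega)) hi
      · rintro h i _ hi
        exact h ⟨i, hi⟩
    simp only [h5] at h3
    have h6 := congrArg (fun z : ℤ => (z : ℚ)) h3
    push_cast at h6
    rw [← h6]
  rw [h1, Finset.card_filter]
  push_cast
  simp only [h2]
  rw [Finset.sum_comm]
  unfold V
  rw [Finset.sum_filter]
  refine Finset.sum_congr rfl (fun T _ => ?_)
  have h7 : (∑ π : Equiv.Perm (Fin n), if ∀ i ∈ T, Occ π i then (-1 : ℚ) ^ T.card else 0) =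
      (-1) ^ T.card * (E n T : ℚ) := by
    unfold E
    push_cast
    rw [mul_sum]
    refine Finset.sum_congr rfl (fun π _ => ?_)
    split_ifs <;> simp
  rw [h7]
  split_ifs with hv
  · rw [E_eq n T hv]
  · rw [E_of_not_valid hv]; simp

theorem V_zero (f : ℕ → ℚ) : V 0 f = f 0 := by
  unfold V
  rw [Finset.sum_filter]
  simp [Valid]

theorem V_one (f : ℕ → ℚ) : V 1 f = f 1 := by
  have : ((range 1).powerset.filter (fun T => Valid 1 T)) = {∅} := by decide
  unfold V
  rw [this]; simp

theorem V_two (f : ℕ → ℚ) : V 2 f = f 2 := by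
  have : ((range 2).powerset.filter (fun T => Valid 2 T)) = {∅} := by decide
  unfold V
  rw [this]; simp

theorem V_rec (n : ℕ) (f : ℕ → ℚ) : V (n + 3) f = V (n + 2) (fun m => f (m + 1)) - V (n + 1) f := by
  have h1 : (range (n + 3)).powerset.filter (fun T => Valid (n + 3) T) =
      (range (n + 2)).powerset.filter (fun T => Valid (n + 2) T) ∪
      ((range (n + 1)).powerset.filter (fun T => Valid (n + 1) T)).image (insert (n + 1)) := by
    ext T
    rw [mem_union, mem_filter, mem_filter, mem_image, mem_powerset, mem_powerset]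
    constructor
    · rintro ⟨h1, h2⟩
      by_cases h : n + 1 ∈ T
      · right
        refine ⟨T.erase (n + 1), ?_, Finset.insert_erase h⟩
        have h5 : Valid (n + 1) (T.erase (n + 1)) := by
          intro i hi
          rw [mem_erase] at hi
          have h3 := h2 i hi.2
          refine ⟨h3.1, ?_, fun h' => h3.2.2 (mem_of_mem_erase h')⟩
          have h4 : i + 1 ≠ n + 1 := fun h' => h3.2.2 (by rw [h']; exact h)
          omega
        rw [mem_filter, mem_powerset]
        refine ⟨?_, h5⟩
        intro i hi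
        have := h5 i hi
        rw [mem_range]; omega
      · left
        have h5 : Valid (n + 2) T := by
          intro i hi
          have h3 := h2 i hi
          refine ⟨h3.1, ?_, h3.2.2⟩
          have : i ≠ n + 1 := fun h' => h (h' ▸ hi)
          omega
        refine ⟨?_, h5⟩
        intro i hi
        have := h5 i hi
        rw [mem_range]; omega
    · rintro (⟨h1, h2⟩ | ⟨T', hT', rfl⟩)
      · refine ⟨h1.trans (Finset.range_subset_range.2 (by omega)), ?_⟩
        intro i hi
        have := h2 i hi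
        exact ⟨this.1, by omega, this.2.2⟩
      · rw [mem_filter, mem_powerset] at hT'
        obtain ⟨h1, h2⟩ := hT'
        constructor
        · intro i hi
          rw [mem_insert] at hi
          rw [mem_range]
          rcases hi with rfl | hi
          · omega
          · have := h2 i hi; omega
        · intro i hi
          rw [mem_insert] at hi
          rw [mem_insert]
          rcases hi with rfl | hi
          · refine ⟨by omega, by omega, ?_⟩
            rintro (h | h)
            · omega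
            · have := h2 _ h; omega
          · have := h2 i hi
            refine ⟨this.1, by omega, ?_⟩
            rintro (h | h)
            · omega
            · exact this.2.2 h
  unfold V
  rw [h1, Finset.sum_union, Finset.sum_image, sub_eq_add_neg, ← Finset.sum_neg_distrib]
  · congr 1
    · refine Finset.sum_congr rfl (fun T hT => ?_)
      rw [mem_filter] at hT
      have := two_card_le hT.2
      rw [show n + 3 - 2 * T.card = n + 2 - 2 * T.card + 1 by omega]
    · refine Finset.sum_congr rfl (fun T hT => ?_)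
      rw [mem_filter, mem_powerset] at hT
      have hnm : n + 1 ∉ T := fun h => by
        have := hT.1 h
        rw [mem_range] at this; omega
      rw [Finset.card_insert_of_notMem hnm, pow_succ,
        show n + 3 - 2 * (T.card + 1) = n + 1 - 2 * T.card by omega]
      ring
  · intro T hT T' hT' h
    have hT1 := mem_powerset.1 (mem_filter.1 hT).1
    have hT2 := mem_powerset.1 (mem_filter.1 hT').1
    have e1 : n + 1 ∉ T := fun h => by
      have := hT1 h
      rw [mem_range] at this; omega
    have e2 : n + 1 ∉ T' := fun h => by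
      have := hT2 h
      rw [mem_range] at this; omega
    rw [← Finset.erase_insert e1, h, Finset.erase_insert e2]
  · rw [Finset.disjoint_left]
    intro T hT hT'
    obtain ⟨T', _, rfl⟩ := mem_image.1 hT'
    have := mem_powerset.1 (mem_filter.1 hT).1 (mem_insert_self _ _)
    rw [mem_range] at this
    have h2 := (mem_filter.1 hT).2 (n + 1) (mem_insert_self _ _)
    omega

/-- coefficients of `(x/(1+x^2))^m` -/
noncomputable def c (m n : ℕ) : ℚ := coeff n ((X * (1 + X ^ 2 : ℚ⟦X⟧)⁻¹) ^ m)

theorem c_zero (n : ℕ) : c 0 n = if n = 0 then 1 else 0 := by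
  unfold c
  rw [pow_zero, coeff_one]

theorem pow_mul_eq (m : ℕ) : ((X * (1 + X ^ 2 : ℚ⟦X⟧)⁻¹) ^ (m + 1)) * (1 + X ^ 2) =
    X * (X * (1 + X ^ 2 : ℚ⟦X⟧)⁻¹) ^ m := by
  have h : (1 + X ^ 2 : ℚ⟦X⟧)⁻¹ * (1 + X ^ 2) = 1 := by
    apply PowerSeries.inv_mul_cancel
    simp
  rw [pow_succ, mul_assoc, mul_assoc, h]
  ring

theorem c_rec (m n : ℕ) : c (m + 1) (n + 2) + c (m + 1) n = c m (n + 1) := by
  have h := congrArg (coeff (n + 2)) (pow_mul_eq m)
  rw [mul_add, mul_one, map_add, coeff_mul_X_pow, show n + 2 = (n + 1) + 1 by ring,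
    coeff_succ_X_mul] at h
  exact h

theorem c_one (m : ℕ) : c (m + 1) 1 = c m 0 := by
  have h := congrArg (coeff 1) (pow_mul_eq m)
  rw [mul_add, mul_one, map_add, coeff_mul_X_pow', if_neg (by norm_num), add_zero,
    show (1 : ℕ) = 0 + 1 by ring, coeff_succ_X_mul] at h
  exact h

theorem c_eq_zero {m n : ℕ} (h : n < m) : c m n = 0 := by
  unfold c
  rw [mul_pow, coeff_X_pow_mul', if_neg (by omega)]

/-- the coefficient sum on the right-hand side -/
noncomputable def U (n : ℕ) (f : ℕ → ℚ) : ℚ := ∑ m ∈ range (n + 1), f m * c m n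

theorem U_rec' (n : ℕ) (f : ℕ → ℚ) :
    U (n + 2) f = U (n + 1) (fun m => f (m + 1)) - (U n f - f 0 * c 0 n) := by
  have h1 : U n f = f 0 * c 0 n + ∑ m ∈ range (n + 2), f (m + 1) * c (m + 1) n := by
    have h2 : U n f = ∑ m ∈ range (n + 3), f m * c m n := by
      unfold U
      rw [Finset.sum_range_succ _ (n + 2), Finset.sum_range_succ _ (n + 1),
        c_eq_zero (show n < n + 2 by omega), c_eq_zero (show n < n + 1 by omega)]
      ring
    rw [h2, Finset.sum_range_succ' _ (n + 2)]
    ring
  rw [h1]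
  unfold U
  rw [Finset.sum_range_succ' _ (n + 2)]
  have h3 : c 0 (n + 2) = 0 := by rw [c_zero]; simp
  rw [h3, mul_zero, add_zero, add_sub_cancel_left, ← Finset.sum_sub_distrib]
  refine Finset.sum_congr rfl (fun m _ => ?_)
  rw [← c_rec m n]
  ring

theorem U_rec (n : ℕ) (f : ℕ → ℚ) : U (n + 3) f = U (n + 2) (fun m => f (m + 1)) - U (n + 1) f := by
  rw [U_rec', c_zero]
  simp

theorem U_zero (f : ℕ → ℚ) : U 0 f = f 0 := by
  unfold U
  simp [c_zero]

theorem U_one (f : ℕ → ℚ) : U 1 f = f 1 := by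
  unfold U
  rw [Finset.sum_range_succ, Finset.sum_range_one, c_zero, show (1 : ℕ) = 0 + 1 by ring, c_one,
    c_zero]
  simp

theorem U_two (f : ℕ → ℚ) : U 2 f = f 2 := by
  rw [U_rec' 0, U_one, U_zero, c_zero]
  simp

theorem V_eq_U (n : ℕ) : ∀ f : ℕ → ℚ, V n f = U n f := by
  induction n using Nat.strong_induction_on with
  | _ n ih =>
    intro f
    match n with
    | 0 => rw [V_zero, U_zero]
    | 1 => rw [V_one, U_one]
    | 2 => rw [V_two, U_two]
    | n + 3 => rw [V_rec, U_rec, ih (n + 2) (by omega), ih (n + 1) (by omega)]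

/-- `∑_n |S_n(p)| x^n = ∑_m m! (x/(1+x^2))^m` as formal power series, for the mesh pattern
`p = (132, R)` of the problem. -/
theorem result : PowerSeries.mk (fun n => (av n : ℚ)) = rhs := by
  ext n
  rw [coeff_mk, rhs, coeff_mk, av_eq, V_eq_U]
  rfl

end Pool.Agent.Results.MP_f17a8d_co.MeshCount
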